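import Pool.Agent.R613.WM.W6

/-!
# The weak Mertens hypothesis for Möbius sums with coprimality conditions, weights, and over blocks

Let `S(u) = ∑_{n ≤ u, (n,q)=1} μ(n) n^(-α)`, `α < 1/2`, `q ≥ 1`. We show unconditionally: for every such `q` and
`α`, and for every `t` with `0 ≤ t < 1`, the weak Mertens hypothesis is equivalent to

`∫_1^x (u^(α-1) (S(u) - S(tu)))² du ≪ log x`

(`S(0) = 0`, so `t = 0` is the case of the full sum `S(u)`); the quotient of this integral by `log x` always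
has a limit in `(0, ∞]`, which is finite exactly under the weak Mertens hypothesis and is then
`∑_ρ |1 - t^(ρ-α)|² / |(ρ - α) ζ'(ρ) ∏_{p ∣ q} (1 - p^(-ρ))|²`.

Idea: all these functions arise from `M(e^v) e^(-v/2)` by operators (shifts, geometric series of shifts,
exponential kernels) that are bounded and invertible in mean square, and act on `e^(iγv)` by a multiplier.
-/

set_option autoImplicit false

open Filter Topology MeasureTheory

namespace Pool.Agent.Results.MP_323ce2_nt.CoprimeWeightedBlocks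

/-- the Mertens function -/
noncomputable def M (u : ℝ) : ℝ := ∑ n ∈ Finset.Icc 1 ⌊u⌋₊, ((ArithmeticFunction.moebius n : ℤ) : ℝ)

/-- the weak Mertens hypothesis -/
def WeakMertens : Prop := ∃ C : ℝ, ∀ x : ℝ, 2 ≤ x → ∫ u in (1:ℝ)..x, (M u / u) ^ 2 ≤ C * Real.log x

/-- `∑_{n ≤ u, (n,q)=1} μ(n) n^(-α)` -/
noncomputable def S (q : ℕ) (α : ℝ) (u : ℝ) : ℝ :=
  ∑ n ∈ (Finset.Icc 1 ⌊u⌋₊).filter (fun n : ℕ => Nat.Coprime n q),
    ((ArithmeticFunction.moebius n : ℤ) : ℝ) * (n : ℝ) ^ (-α)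

/-- the nontrivial zeros of the Riemann zeta function -/
def NT : Set ℂ := {s : ℂ | riemannZeta s = 0 ∧ 0 < s.re ∧ s.re < 1}

/-- `∏_{p ∣ q} (1 - p^(-s))` -/
noncomputable def euler (q : ℕ) (s : ℂ) : ℂ := ∏ p ∈ q.primeFactors, (1 - (p : ℂ) ^ (-s))

/-- the mean square of `F` obeys the weak Mertens hypothesis, with the sum over the zeros `∑ s(ρ)` -/
def Law (F : ℝ → ℝ) (s : NT → ℝ) : Prop :=
  (WeakMertens ↔ ∃ C : ℝ, ∀ x : ℝ, 2 ≤ x → ∫ u in (1:ℝ)..x, F u ^ 2 ≤ C * Real.log x) ∧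
  (WeakMertens ↔ ∃ C : ℝ, ∃ᶠ x : ℝ in atTop, ∫ u in (1:ℝ)..x, F u ^ 2 ≤ C * Real.log x) ∧
  (WeakMertens → Summable s ∧ 0 < ∑' ρ, s ρ ∧
    Tendsto (fun x : ℝ => (∫ u in (1:ℝ)..x, F u ^ 2) / Real.log x) atTop (𝓝 (∑' ρ, s ρ))) ∧
  (¬ WeakMertens → Tendsto (fun x : ℝ => (∫ u in (1:ℝ)..x, F u ^ 2) / Real.log x) atTop atTop)

open Pool.Agent.R613.WM in
theorem law_of {F : ℝ → ℝ} {s : NT → ℝ} {G : ℝ → ℂ} {m : ℂ → ℂ} (h : Good G m)
    (hF : ∀ v : ℝ, 0 ≤ v → Real.exp v * F (Real.exp v) ^ 2 = ‖G v‖ ^ 2)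
    (hs : ∀ ρ : NT, (ρ : ℂ).re = 1 / 2 → s ρ = ‖m ρ‖ ^ 2 / ‖(ρ : ℂ) * deriv riemannZeta ρ‖ ^ 2) : Law F s := by
  have hWM : WeakMertens ↔ Pool.Agent.W120.WM.ZC := Pool.Agent.TH223.AP.WM_iff_ZC
  have hI : ∀ x : ℝ, 1 ≤ x → (∫ u in (1:ℝ)..x, F u ^ 2) = IQ G (Real.log x) := fun x hx => int_IQ hF hx
  obtain ⟨⟨l1, l2, l3, l4⟩, l5⟩ := law_good h hI
  refine ⟨hWM.trans l1, hWM.trans l2, fun hW => ?_, fun hW => l4 fun hZ => hW (hWM.2 hZ)⟩
  have hZ := hWM.1 hW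
  have hss : s = fun ρ : NT => ‖m ρ‖ ^ 2 / ‖(ρ : ℂ) * deriv riemannZeta ρ‖ ^ 2 := by
    funext ρ
    exact hs ρ (hZ.1 ρ ρ.2).1
  rw [hss]
  exact ⟨(l5 hZ).1, (l5 hZ).2, l3 hZ⟩

open Pool.Agent.R613.WM in
lemma S_exp {q : ℕ} (hq : 1 ≤ q) (α v : ℝ) : S q α (Real.exp v) = Ms (bP q.primeFactors α) v := by
  unfold S Ms
  rw [Finset.sum_filter]
  refine Finset.sum_congr rfl fun n hn => ?_
  have hc : Nat.Coprime n q ↔ ∀ p ∈ q.primeFactors, ¬ p ∣ n := by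
    constructor
    · intro h p hp hpn
      have h1 := Nat.dvd_gcd hpn (Nat.dvd_of_mem_primeFactors hp)
      rw [h] at h1
      exact (Nat.prime_of_mem_primeFactors hp).one_lt.ne' (Nat.dvd_one.1 h1)
    · intro h
      by_contra hne
      obtain ⟨p, hp, hpd⟩ := Nat.exists_prime_and_dvd hne
      exact h p (Nat.mem_primeFactors.2 ⟨hp, hpd.trans (Nat.gcd_dvd_right n q), by omega⟩)
        (hpd.trans (Nat.gcd_dvd_left n q))
  unfold bP muP
  by_cases h : Nat.Coprime n q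
  · rw [if_pos h, if_pos (hc.1 h)]
    rfl
  · rw [if_neg h, if_neg (fun h2 => h (hc.2 h2)), zero_mul]

open Pool.Agent.R613.WM in
lemma omm_p (p : ℕ) (hp : p.Prime) (ρ : ℂ) :
    omm (Real.exp (-(1 / 2) * Real.log p)) (Real.log p) ρ = 1 - (p : ℂ) ^ (-ρ) := by
  have hp0 : (p : ℂ) ≠ 0 := by exact_mod_cast hp.pos.ne'
  unfold omm
  rw [Complex.cpow_def_of_ne_zero hp0, ← Complex.natCast_log, Complex.ofReal_exp, ← Complex.exp_add]
  congr 2
  push_cast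
  ring

open Pool.Agent.R613.WM in
lemma omm_b {b : ℝ} (hb : 1 < b) (α : ℝ) (ρ : ℂ) :
    omm (Real.exp ((α - 1 / 2) * Real.log b)) (Real.log b) ρ = 1 - (b : ℂ) ^ ((α : ℂ) - ρ) := by
  have hb0 : (b : ℂ) ≠ 0 := by exact_mod_cast (by linarith : b ≠ 0)
  unfold omm
  rw [Complex.cpow_def_of_ne_zero hb0, ← Complex.ofReal_log (by linarith), Complex.ofReal_exp, ← Complex.exp_add]
  congr 2
  push_cast
  ring

open Pool.Agent.R613.WM in
lemma eP_eq (q : ℕ) (ρ : ℂ) : eP q.primeFactors ρ = (euler q ρ)⁻¹ := by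
  unfold eP euler
  rw [← Finset.prod_inv_distrib]
  refine Finset.prod_congr rfl fun p hp => ?_
  rw [omm_p p (Nat.prime_of_mem_primeFactors hp)]

open Pool.Agent.R613.WM in
lemma mP_eq (q : ℕ) {α : ℝ} (hα : α < 1 / 2) {ρ : ℂ} (hρ : ρ.re = 1 / 2) :
    ‖mP q.primeFactors α ρ‖ ^ 2 / ‖ρ * deriv riemannZeta ρ‖ ^ 2 =
      1 / ‖(ρ - α) * deriv riemannZeta ρ * euler q ρ‖ ^ 2 := by
  have hρ0 : ‖ρ‖ ≠ 0 := by
    rw [norm_ne_zero_iff]
    rintro rfl
    simp at hρ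
  unfold mP
  rw [fac_eq hα hρ, eP_eq]
  rw [norm_mul, norm_div, norm_inv, norm_mul, norm_mul, norm_mul]
  field_simp

lemma hexp {α : ℝ} (v : ℝ) : Real.exp v * (Real.exp v ^ (α - 1)) ^ 2 = Real.exp ((α - 1 / 2) * v) ^ 2 := by
  rw [← Real.exp_mul, ← Real.exp_nat_mul, ← Real.exp_nat_mul, ← Real.exp_add]
  congr 1
  push_cast
  ring

open Pool.Agent.R613.WM in
lemma full (q : ℕ) (hq : 1 ≤ q) (α : ℝ) (hα : α < 1 / 2) :
    Law (fun u => u ^ (α - 1) * S q α u)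
      (fun ρ => 1 / ‖((ρ : ℂ) - α) * deriv riemannZeta ρ * euler q ρ‖ ^ 2) := by
  have hP : ∀ p ∈ q.primeFactors, p.Prime := fun p hp => Nat.prime_of_mem_primeFactors hp
  refine law_of (good_b q.primeFactors hP hα) (fun v _ => ?_) (fun ρ hρ => (mP_eq q hα hρ).symm)
  rw [S_exp hq]
  unfold gf
  rw [Complex.norm_real, Real.norm_eq_abs, sq_abs]
  calc Real.exp v * (Real.exp v ^ (α - 1) * Ms (bP q.primeFactors α) v) ^ 2 =
      (Real.exp v * (Real.exp v ^ (α - 1)) ^ 2) * Ms (bP q.primeFactors α) v ^ 2 := by ring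
    _ = _ := by
      rw [hexp]
      ring

open Pool.Agent.R613.WM in
lemma blk (q : ℕ) (hq : 1 ≤ q) (α : ℝ) (hα : α < 1 / 2) (b : ℝ) (hb : 1 < b) :
    Law (fun u => u ^ (α - 1) * (S q α u - S q α (u / b)))
      (fun ρ => ‖1 - (b : ℂ) ^ ((α : ℂ) - ρ)‖ ^ 2 /
        ‖((ρ : ℂ) - α) * deriv riemannZeta ρ * euler q ρ‖ ^ 2) := by
  have hP : ∀ p ∈ q.primeFactors, p.Prime := fun p hp => Nat.prime_of_mem_primeFactors hp
  have hL : 0 < Real.log b := Real.log_pos hb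
  refine law_of (good_blk q.primeFactors hP hα hL) (fun v _ => ?_) (fun ρ hρ => ?_)
  · have hdiv : Real.exp v / b = Real.exp (v - Real.log b) := by
      rw [Real.exp_sub, Real.exp_log (by linarith)]
    rw [hdiv, S_exp hq, S_exp hq, ← gf_block, Complex.norm_real, Real.norm_eq_abs, sq_abs]
    calc Real.exp v * (Real.exp v ^ (α - 1) * (Ms (bP q.primeFactors α) v -
          Ms (bP q.primeFactors α) (v - Real.log b))) ^ 2 =
        (Real.exp v * (Real.exp v ^ (α - 1)) ^ 2) * (Ms (bP q.primeFactors α) v -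
          Ms (bP q.primeFactors α) (v - Real.log b)) ^ 2 := by ring
      _ = _ := by
        rw [hexp]
        ring
  · symm
    rw [norm_mul (omm (Real.exp ((α - 1 / 2) * Real.log b)) (Real.log b) (ρ : ℂ)) (mP q.primeFactors α (ρ : ℂ)),
      mul_pow, mul_div_assoc, mP_eq q hα hρ, omm_b hb, mul_one_div]

/-- For `q ≥ 1`, `α < 1/2` and `0 ≤ t < 1` (for `t = 0` the sum is over all `n ≤ u`), the mean square of
`u^α ∑_{tu < n ≤ u, (n,q)=1} μ(n) n^(-α)` obeys the weak Mertens hypothesis. -/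
theorem result (q : ℕ) (hq : 1 ≤ q) (α : ℝ) (hα : α < 1 / 2) (t : ℝ) (ht0 : 0 ≤ t) (ht1 : t < 1) :
    Law (fun u => u ^ (α - 1) * (S q α u - S q α (t * u)))
      (fun ρ => ‖1 - (t : ℂ) ^ ((ρ : ℂ) - α)‖ ^ 2 /
        ‖((ρ : ℂ) - α) * deriv riemannZeta ρ * euler q ρ‖ ^ 2) := by
  rcases ht0.eq_or_lt with h0 | h0
  · subst h0
    have e1 : (fun u : ℝ => u ^ (α - 1) * (S q α u - S q α (0 * u))) = fun u => u ^ (α - 1) * S q α u := by
      funext u
      have : S q α (0 * u) = 0 := by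
        unfold S
        simp
      rw [this, sub_zero]
    rw [e1]
    obtain ⟨l1, l2, l3, l4⟩ := full q hq α hα
    refine ⟨l1, l2, fun hW => ?_, l4⟩
    have hWM : WeakMertens ↔ Pool.Agent.W120.WM.ZC := Pool.Agent.TH223.AP.WM_iff_ZC
    have e2 : (fun ρ : NT => ‖1 - ((0 : ℝ) : ℂ) ^ ((ρ : ℂ) - α)‖ ^ 2 /
        ‖((ρ : ℂ) - α) * deriv riemannZeta ρ * euler q ρ‖ ^ 2) =
        fun ρ : NT => 1 / ‖((ρ : ℂ) - α) * deriv riemannZeta ρ * euler q ρ‖ ^ 2 := by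
      funext ρ
      have hre : (ρ : ℂ).re = 1 / 2 := ((hWM.1 hW).1 ρ ρ.2).1
      have hne : (ρ : ℂ) - α ≠ 0 := by
        intro h
        have := congrArg Complex.re h
        simp [hre] at this
        linarith
      rw [Complex.ofReal_zero, Complex.zero_cpow hne, sub_zero, norm_one, one_pow]
    rw [e2]
    exact l3 hW
  · have hb : 1 < 1 / t := by
      rw [lt_div_iff₀ h0]
      linarith
    have h := blk q hq α hα (1 / t) hb
    have e1 : (fun u : ℝ => u ^ (α - 1) * (S q α u - S q α (u / (1 / t)))) =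
        fun u => u ^ (α - 1) * (S q α u - S q α (t * u)) := by
      funext u
      have : u / (1 / t) = t * u := by
        field_simp
      rw [this]
    have e2 : (fun ρ : NT => ‖1 - ((1 / t : ℝ) : ℂ) ^ ((α : ℂ) - ρ)‖ ^ 2 /
        ‖((ρ : ℂ) - α) * deriv riemannZeta ρ * euler q ρ‖ ^ 2) =
        fun ρ : NT => ‖1 - (t : ℂ) ^ ((ρ : ℂ) - α)‖ ^ 2 /
        ‖((ρ : ℂ) - α) * deriv riemannZeta ρ * euler q ρ‖ ^ 2 := by
      funext ρ
      have h1 : ((1 / t : ℝ) : ℂ) ^ ((α : ℂ) - ρ) = (t : ℂ) ^ ((ρ : ℂ) - α) := by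
        have ht : (t : ℂ) ≠ 0 := by exact_mod_cast h0.ne'
        have ht' : ((1 / t : ℝ) : ℂ) ≠ 0 := by exact_mod_cast (one_div_pos.2 h0).ne'
        rw [Complex.cpow_def_of_ne_zero ht, Complex.cpow_def_of_ne_zero ht', ← Complex.ofReal_log (by positivity),
          ← Complex.ofReal_log h0.le, one_div, Real.log_inv]
        congr 1
        push_cast
        ring
      rw [h1]
    rw [e1, e2] at h
    exact h

end Pool.Agent.Results.MP_323ce2_nt.CoprimeWeightedBlocks
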