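import Pool.Agent.R305.FM.F6

/-!
# The weak Mertens hypothesis and the mean square discrepancy of the Farey sequence

Let `F_n` be the Farey sequence of order `n` (the rationals in `(0, 1]` with denominator at most `n`) and

`D(n) = ∫_0^1 (#{f ∈ F_n : f ≤ t} - #F_n t)² dt`.

Franel and Landau: the Riemann Hypothesis holds if and only if `D(n) ≪ n^(1+ε)` for all `ε > 0`. We show
unconditionally: the weak Mertens hypothesis is equivalent to

`∫_1^x D(⌊u⌋) u^(-2) du ≪ log² x`;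

the quotient `(1 / log² x) ∫_1^x D(⌊u⌋) u^(-2) du` always has a limit in `(0, ∞]`, which is finite exactly
under the weak Mertens hypothesis and is then `(1 / (24 ζ(3))) ∑_ρ |ζ(1+ρ)|² / |ρ ζ'(ρ)|²`.

Idea: `D(n) = 1/4 + (1/12) ∑_{g ≤ n} (∏_{p ∣ g} (1 - p^(-2))) H(n/g)²` with `H(y) = ∑_{m ≤ y} M(y/m)/m`, and
`H(e^v) e^(-v/2)` arises from `M(e^v) e^(-v/2)` by convolution with an invertible finite measure, with
Fourier transform `ζ(3/2 + iγ)`; Young's inequality and the almost periodicity of `M(e^v) e^(-v/2)` (proved in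
`TH223`, `W120`) give the mean square of `H`.
-/

set_option autoImplicit false

open Filter Topology MeasureTheory

namespace Pool.Agent.Results.MP_323ce2_nt.FareyDiscrepancy

/-- the Mertens function -/
noncomputable def M (u : ℝ) : ℝ := ∑ n ∈ Finset.Icc 1 ⌊u⌋₊, ((ArithmeticFunction.moebius n : ℤ) : ℝ)

/-- the weak Mertens hypothesis -/
def WeakMertens : Prop := ∃ C : ℝ, ∀ x : ℝ, 2 ≤ x → ∫ u in (1:ℝ)..x, (M u / u) ^ 2 ≤ C * Real.log x

/-- the Farey sequence of order `n`: the rationals in `(0, 1]` with denominator at most `n` -/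
def farey (n : ℕ) : Finset ℚ :=
  ((Finset.Icc 1 n ×ˢ Finset.Icc 1 n).image (fun p : ℕ × ℕ => (p.1 : ℚ) / (p.2 : ℚ))).filter
    (fun q : ℚ => q ≤ 1)

/-- its mean square discrepancy -/
noncomputable def D (n : ℕ) : ℝ := ∫ t in (0:ℝ)..1,
  ((((farey n).filter (fun f : ℚ => (f : ℝ) ≤ t)).card : ℝ) - (farey n).card * t) ^ 2

/-- `∫_1^x D(⌊u⌋) u^(-2) du` -/
noncomputable def meanD (x : ℝ) : ℝ := ∫ u in (1:ℝ)..x, D ⌊u⌋₊ / u ^ 2

/-- the nontrivial zeros of the Riemann zeta function -/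
def NT : Set ℂ := {s : ℂ | riemannZeta s = 0 ∧ 0 < s.re ∧ s.re < 1}

theorem result :
    (WeakMertens ↔ ∃ C : ℝ, ∀ x : ℝ, 2 ≤ x → meanD x ≤ C * Real.log x ^ 2) ∧
    (WeakMertens ↔ ∃ C : ℝ, ∃ᶠ x : ℝ in atTop, meanD x ≤ C * Real.log x ^ 2) ∧
    (WeakMertens →
      Summable (fun ρ : NT => ‖riemannZeta (1 + ρ)‖ ^ 2 / ‖(ρ : ℂ) * deriv riemannZeta ρ‖ ^ 2) ∧
      0 < ∑' ρ : NT, ‖riemannZeta (1 + ρ)‖ ^ 2 / ‖(ρ : ℂ) * deriv riemannZeta ρ‖ ^ 2 ∧
      Tendsto (fun x : ℝ => meanD x / Real.log x ^ 2) atTop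
        (𝓝 ((∑' ρ : NT, ‖riemannZeta (1 + ρ)‖ ^ 2 / ‖(ρ : ℂ) * deriv riemannZeta ρ‖ ^ 2) /
          (24 * ∑' n : ℕ, 1 / (n : ℝ) ^ 3)))) ∧
    (¬ WeakMertens → Tendsto (fun x : ℝ => meanD x / Real.log x ^ 2) atTop atTop) := by
  have hD : ∀ n, D n = Pool.Agent.R305.FM.DD n := by
    intro n
    unfold D Pool.Agent.R305.FM.DD
    congr 1
    funext t
    congr 2
    unfold H353.FB.cnt
    rw [← Finset.sum_filter, Finset.sum_const, nsmul_eq_mul, mul_one]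
    rfl
  have hmean : ∀ x, meanD x = Pool.Agent.R305.FM.FI x := by
    intro x
    unfold meanD Pool.Agent.R305.FM.FI
    simp only [hD]
  have hWM : WeakMertens ↔ Pool.Agent.W120.WM.ZC := Pool.Agent.TH223.AP.WM_iff_ZC
  have e1 : (∃ C : ℝ, ∀ x : ℝ, 2 ≤ x → meanD x ≤ C * Real.log x ^ 2) →
      ∃ C : ℝ, ∃ᶠ x : ℝ in atTop, meanD x ≤ C * Real.log x ^ 2 := by
    rintro ⟨C, hC⟩
    exact ⟨C, (eventually_atTop.2 ⟨2, hC⟩).frequently⟩
  have e2 : (∃ C : ℝ, ∃ᶠ x : ℝ in atTop, meanD x ≤ C * Real.log x ^ 2) → WeakMertens := by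
    rintro ⟨C, hC⟩
    simp only [hmean] at hC
    exact hWM.2 (Pool.Agent.R305.FM.ZC_of_freq hC)
  have e3 : WeakMertens → ∃ C : ℝ, ∀ x : ℝ, 2 ≤ x → meanD x ≤ C * Real.log x ^ 2 := by
    intro h
    simp only [hmean]
    exact Pool.Agent.R305.FM.bound_all (hWM.1 h)
  refine ⟨⟨e3, fun h => e2 (e1 h)⟩, ⟨fun h => e1 (e3 h), e2⟩, fun h => ?_, fun h => ?_⟩
  · have hZ := hWM.1 h
    refine ⟨Pool.Agent.R305.FM.SH_summable hZ, Pool.Agent.R305.FM.SH_pos hZ, ?_⟩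
    simp only [hmean]
    have h1 := Pool.Agent.R305.FM.lim_yes hZ
    have h2 : Pool.Agent.R305.FM.SH * Pool.Agent.R305.FM.mu3 / 24 =
        (∑' ρ : NT, ‖riemannZeta (1 + ρ)‖ ^ 2 / ‖(ρ : ℂ) * deriv riemannZeta ρ‖ ^ 2) /
          (24 * ∑' n : ℕ, 1 / (n : ℝ) ^ 3) := by
      have h3 := Pool.Agent.R305.FM.mu3_mul
      obtain ⟨z, hz⟩ : ∃ z : ℝ, z = ∑' n : ℕ, 1 / (n : ℝ) ^ 3 := ⟨_, rfl⟩
      rw [← hz] at h3 ⊢
      have hz0 : z ≠ 0 := by
        rintro rfl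
        simp at h3
      have h4 : Pool.Agent.R305.FM.mu3 = 1 / z := by
        field_simp
        exact h3
      rw [h4]
      unfold Pool.Agent.R305.FM.SH
      rw [mul_one_div, div_div, mul_comm z 24]
      rfl
    rw [← h2]
    exact h1
  · simp only [hmean]
    exact Pool.Agent.R305.FM.lim_no (fun hZ => h (hWM.2 hZ))

end Pool.Agent.Results.MP_323ce2_nt.FareyDiscrepancy
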