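import Pool.Agent.R754.LM.D

/-!
# The partial sums of `μ(n)` and of `μ(n)/n` have the same mean square

Let `M(u) = ∑_{n ≤ u} μ(n)` and `m(u) = ∑_{n ≤ u} μ(n)/n`. There is an exact identity

`∫_a^b m(u)² du = ∫_a^b (M(u)/u)² du + (b m(b) - M(b))²/b - (a m(a) - M(a))²/a`,

so `∫_1^x m(u)² du ≥ I(x) = ∫_1^x (M(u)/u)² du`. Unconditionally: the weak Mertens hypothesis `I(x) ≪ log x` is
equivalent to `∫_1^x m(u)² du ≪ log x` (and to the same along a sequence); `(1 / log x) ∫_1^x m(u)² du` always has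
a limit in `(0, ∞]`, the same as `I(x) / log x`, that is `∑_ρ 1 / |ρ ζ'(ρ)|²` under the weak Mertens hypothesis and
`∞` otherwise; and the weak Mertens hypothesis implies `(x m(x) - M(x))² = o(x log x)`.

The last point: `x m(x) - M(x) = x ∫_1^x M(u) u^(-2) du = -x ∫_x^∞ M(u) u^(-2) du`, where `∫_1^∞ M(u) u^(-2) du = 0`
is the pole of `ζ` at `1`; since `I(x) / log x` converges, `I(2x) - I(x) = o(log x)`, and a doubling argument
bounds the tail.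
-/

set_option autoImplicit false

open Filter Topology MeasureTheory

namespace Pool.Agent.Results.MP_323ce2_nt.LogarithmicMertens

/-- the Mertens function -/
noncomputable def M (u : ℝ) : ℝ := ∑ n ∈ Finset.Icc 1 ⌊u⌋₊, ((ArithmeticFunction.moebius n : ℤ) : ℝ)

/-- `∑_{n ≤ u} μ(n)/n` -/
noncomputable def m (u : ℝ) : ℝ := ∑ n ∈ Finset.Icc 1 ⌊u⌋₊, ((ArithmeticFunction.moebius n : ℤ) : ℝ) / n

/-- the weak Mertens hypothesis -/
def WeakMertens : Prop := ∃ C : ℝ, ∀ x : ℝ, 2 ≤ x → ∫ u in (1:ℝ)..x, (M u / u) ^ 2 ≤ C * Real.log x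

/-- the nontrivial zeros of the Riemann zeta function -/
def NT : Set ℂ := {s : ℂ | riemannZeta s = 0 ∧ 0 < s.re ∧ s.re < 1}

/-- `∫_1^x m(u)² du` -/
noncomputable def meanm (x : ℝ) : ℝ := ∫ u in (1:ℝ)..x, m u ^ 2

theorem result :
    (∀ a b : ℝ, 0 < a → a ≤ b → ∫ u in a..b, m u ^ 2 =
      (∫ u in a..b, (M u / u) ^ 2) + ((b * m b - M b) ^ 2 / b - (a * m a - M a) ^ 2 / a)) ∧
    (WeakMertens ↔ ∃ C : ℝ, ∀ x : ℝ, 2 ≤ x → meanm x ≤ C * Real.log x) ∧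
    (WeakMertens ↔ ∃ C : ℝ, ∃ᶠ x : ℝ in atTop, meanm x ≤ C * Real.log x) ∧
    (WeakMertens →
      Summable (fun ρ : NT => 1 / ‖(ρ : ℂ) * deriv riemannZeta ρ‖ ^ 2) ∧
      0 < ∑' ρ : NT, 1 / ‖(ρ : ℂ) * deriv riemannZeta ρ‖ ^ 2 ∧
      Tendsto (fun x : ℝ => meanm x / Real.log x) atTop
        (𝓝 (∑' ρ : NT, 1 / ‖(ρ : ℂ) * deriv riemannZeta ρ‖ ^ 2)) ∧
      Tendsto (fun x : ℝ => (x * m x - M x) ^ 2 / x / Real.log x) atTop (𝓝 0)) ∧
    (¬ WeakMertens → Tendsto (fun x : ℝ => meanm x / Real.log x) atTop atTop) := by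
  have hWM : WeakMertens ↔ Pool.Agent.W120.WM.ZC := Pool.Agent.TH223.AP.WM_iff_ZC
  refine ⟨fun a b ha hab => Pool.Agent.R754.LM.energy ha hab, Pool.Agent.R754.LM.main.1,
    Pool.Agent.R754.LM.main.2, fun h => ?_, fun h => ?_⟩
  · have hZ := hWM.1 h
    exact ⟨hZ.2, Pool.Agent.TH223.AP.SS_pos hZ, Pool.Agent.R754.LM.Im_yes hZ,
      Pool.Agent.R754.LM.key (Pool.Agent.R754.LM.I2_lim hZ)⟩
  · exact Pool.Agent.R754.LM.Im_no fun hZ => h (hWM.2 hZ)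

end Pool.Agent.Results.MP_323ce2_nt.LogarithmicMertens
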