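import Pool.Agent.R754.WX.Wt

/-!
# Weighted Mertens functions and Farey quadrature: all give the weak Mertens hypothesis

For a function `E` on `[1, ∞)` consider `I_E(x) = ∫_1^x |E(u)|² u^(-2) du`; the weak Mertens hypothesis (WM) is
`I_M(x) ≪ log x`. `Criterion E W` says (unconditionally): WM holds iff `I_E(x) ≪ log x`, iff this holds along a
sequence; the quotient `I_E(x) / log x` has a limit in `(0, ∞]`, which is `∞` if WM fails and
`∑_ρ W(ρ) / |ρ ζ'(ρ)|²` under WM. We prove it for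

* `E(u) = ∑_{n ≤ u} (μ * h)(n)`, `W(ρ) = |H(ρ)|²`, for every arithmetic function `h` such that `h` and its
  Dirichlet inverse `k` satisfy `∑ |h(n)| n^(-1/2) < ∞`, `∑ |k(n)| n^(-1/2) < ∞` (`H(s) = ∑ h(n) n^(-s)`);
* `E(u) = ∑_{n ≤ u} μ(n) ∏_{p ∣ n} g(p)` for all weights with `∑_p |1 - g(p)| p^(-1/2) < ∞` and
  `|g(p)| < p^(1/2)` for all primes `p`, `W(ρ) = |∏_p (1 - g(p) p^(-ρ)) / (1 - p^(-ρ))|²`; in particular for the
  sums of `μ(n)` over the `n ≤ u` coprime to `q`;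
* the error `∑_{r ∈ F_n} G(r) - a |F_n|`, `n = ⌊u⌋`, of the Farey fractions as nodes of a quadrature formula, if
  the errors `c(d) = ∑_{j ≤ d} G(j/d) - a d` of the usual Riemann sums satisfy the condition of the first item;
  in particular for `G(t) = t (1 - t)`, that is for the second moment of the Farey fractions.

The method is that of `FareyDiscrepancy` (Young's inequality for convolutions with measures on the logarithms of
the integers and the mean square almost periodicity of `M(e^v) e^(-v/2)`).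
-/

set_option autoImplicit false

open Filter Topology MeasureTheory

namespace Pool.Agent.Results.MP_323ce2_nt.WeightedMertens

/-- the Mertens function -/
noncomputable def M (u : ℝ) : ℝ := ∑ n ∈ Finset.Icc 1 ⌊u⌋₊, ((ArithmeticFunction.moebius n : ℤ) : ℝ)

/-- the weak Mertens hypothesis -/
def WeakMertens : Prop := ∃ C : ℝ, ∀ x : ℝ, 2 ≤ x → ∫ u in (1:ℝ)..x, (M u / u) ^ 2 ≤ C * Real.log x

/-- the nontrivial zeros of the Riemann zeta function -/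
def NT : Set ℂ := {s : ℂ | riemannZeta s = 0 ∧ 0 < s.re ∧ s.re < 1}

/-- `∫_1^x |E(u)|² u^(-2) du` -/
noncomputable def meanSq (E : ℝ → ℂ) (x : ℝ) : ℝ := ∫ u in (1:ℝ)..x, ‖E u‖ ^ 2 / u ^ 2

/-- the weak Mertens hypothesis is equivalent to `meanSq E x ≪ log x`, and `meanSq E x / log x` has a limit in
`(0, ∞]`: the sum of `W(ρ) / |ρ ζ'(ρ)|²` under the weak Mertens hypothesis, otherwise `∞` -/
def Criterion (E : ℝ → ℂ) (W : ℂ → ℝ) : Prop :=
  (WeakMertens ↔ ∃ C : ℝ, ∀ x : ℝ, 2 ≤ x → meanSq E x ≤ C * Real.log x) ∧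
  (WeakMertens ↔ ∃ C : ℝ, ∃ᶠ x : ℝ in atTop, meanSq E x ≤ C * Real.log x) ∧
  (WeakMertens → Summable (fun ρ : NT => W ρ / ‖(ρ : ℂ) * deriv riemannZeta ρ‖ ^ 2) ∧
    0 < ∑' ρ : NT, W ρ / ‖(ρ : ℂ) * deriv riemannZeta ρ‖ ^ 2 ∧
    Tendsto (fun x : ℝ => meanSq E x / Real.log x) atTop
      (𝓝 (∑' ρ : NT, W ρ / ‖(ρ : ℂ) * deriv riemannZeta ρ‖ ^ 2))) ∧
  (¬ WeakMertens → Tendsto (fun x : ℝ => meanSq E x / Real.log x) atTop atTop)

/-- `∑_{n ≤ u} (μ * h)(n)` -/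
noncomputable def S (h : ArithmeticFunction ℂ) (u : ℝ) : ℂ := ∑ n ∈ Finset.Icc 1 ⌊u⌋₊,
  (((ArithmeticFunction.moebius : ArithmeticFunction ℤ) : ArithmeticFunction ℂ) * h) n

/-- the Farey sequence of order `n`: the rationals in `(0, 1]` with denominator at most `n` -/
def farey (n : ℕ) : Finset ℚ :=
  ((Finset.Icc 1 n ×ˢ Finset.Icc 1 n).image (fun p : ℕ × ℕ => (p.1 : ℚ) / (p.2 : ℚ))).filter
    (fun q : ℚ => q ≤ 1)

theorem result :
    (∀ h k : ArithmeticFunction ℂ, h * k = 1 → Summable (fun n : ℕ => ‖h n‖ / √(n : ℝ)) →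
      Summable (fun n : ℕ => ‖k n‖ / √(n : ℝ)) →
      Criterion (S h) (fun ρ => ‖LSeries (fun n => h n) ρ‖ ^ 2)) ∧
    (∀ g : ℕ → ℂ, Summable (fun p : Nat.Primes => ‖1 - g p‖ / √(p : ℝ)) →
      (∀ p : ℕ, p.Prime → ‖g p‖ < √(p : ℝ)) →
      Criterion (fun u => ∑ n ∈ Finset.Icc 1 ⌊u⌋₊,
          ((ArithmeticFunction.moebius n : ℤ) : ℂ) * ∏ p ∈ n.primeFactors, g p)
        (fun ρ => ‖∏' p : Nat.Primes, (1 - g p * (p : ℂ) ^ (-ρ)) / (1 - (p : ℂ) ^ (-ρ))‖ ^ 2)) ∧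
    (∀ q : ℕ, 0 < q →
      Criterion (fun u => ∑ n ∈ (Finset.Icc 1 ⌊u⌋₊).filter (fun n => Nat.Coprime n q),
          ((ArithmeticFunction.moebius n : ℤ) : ℂ))
        (fun ρ => ∏ p ∈ q.primeFactors, 1 / ‖1 - (p : ℂ) ^ (-ρ)‖ ^ 2)) ∧
    (∀ (G : ℚ → ℝ) (a : ℝ) (c k : ArithmeticFunction ℂ),
      (∀ d : ℕ, 1 ≤ d → c d = (((∑ j ∈ Finset.Icc 1 d, G ((j : ℚ) / (d : ℚ))) - a * d : ℝ) : ℂ)) →
      c * k = 1 → Summable (fun n : ℕ => ‖c n‖ / √(n : ℝ)) → Summable (fun n : ℕ => ‖k n‖ / √(n : ℝ)) →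
      Criterion (fun u => (((∑ r ∈ farey ⌊u⌋₊, G r) - a * (farey ⌊u⌋₊).card : ℝ) : ℂ))
        (fun ρ => ‖LSeries (fun n => c n) ρ‖ ^ 2)) ∧
    Criterion (fun u => (((∑ r ∈ farey ⌊u⌋₊, (r : ℝ) * (1 - (r : ℝ))) - 1 / 6 * (farey ⌊u⌋₊).card : ℝ) : ℂ))
      (fun ρ => ‖riemannZeta (1 + ρ)‖ ^ 2 / 36) := by
  refine ⟨fun h k hk h1 h2 => ?_, fun g h1 h2 => Pool.Agent.R754.WX.crit_weights h1 h2,
    fun q hq => Pool.Agent.R754.WX.crit_coprime hq, fun G a c k hc hk h1 h2 => ?_,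
    Pool.Agent.R754.WX.crit_second⟩
  · have h3 := Pool.Agent.R754.WX.crit hk h1 h2
    simp only [Pool.Agent.R754.WX.LS_eq] at h3
    exact h3
  · have e : c = Pool.Agent.R754.WX.cF G a := by
      ext d
      rcases Nat.eq_zero_or_pos d with rfl | hd
      · simp
      · rw [hc d hd, Pool.Agent.R754.WX.cF_apply]
    subst e
    exact Pool.Agent.R754.WX.crit_farey hk h1 h2

end Pool.Agent.Results.MP_323ce2_nt.WeightedMertens
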